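import Pool.Agent.Helper53.SL.St

/-!
Project SL for MP_9062f4_nt, module GAM: elementary estimates of `gam`.
-/

set_option autoImplicit false

open Pool.Agent.Helper53.SL

namespace Pool.Agent.Helper76.SL

private theorem gam_symm (τ c : ℝ) (n : ℕ) : gam τ c n = -gam c τ n := by
  unfold gam
  ring

private theorem abs_gam_maxmin (τ c : ℝ) (n : ℕ) : |gam τ c n| = |gam (max τ c) (min τ c) n| := by
  rcases le_total τ c with h | h
  · rw [max_eq_right h, min_eq_left h, gam_symm τ c n, abs_neg]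
  · rw [max_eq_left h, min_eq_right h]

private theorem pow_sub_nonneg {a b : ℝ} (hb : 1 ≤ b) (hab : b ≤ a) (n : ℕ) : 0 ≤ a ^ n - b ^ n := by
  have := pow_le_pow_left₀ (by linarith : (0 : ℝ) ≤ b) hab n
  linarith

private theorem gam_bounds {a b : ℝ} (hb : 1 ≤ b) (hab : b ≤ a) (n : ℕ) (hn : 1 ≤ n) :
    (a ^ n - b ^ n) / n ≤ |gam a b n| ∧ |gam a b n| ≤ 2 * ((a ^ n - b ^ n) / n) := by
  have hn' : (0 : ℝ) < n := by exact_mod_cast hn
  have hb0 : (0 : ℝ) < b := by linarith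
  have ha0 : (0 : ℝ) < a := by linarith
  have hp := pow_sub_nonneg hb hab n
  have hbn : 1 ≤ b ^ n := one_le_pow₀ hb
  have han : 1 ≤ a ^ n := one_le_pow₀ (hb.trans hab)
  have e : (b⁻¹) ^ n - (a⁻¹) ^ n = (a ^ n - b ^ n) / (a ^ n * b ^ n) := by
    rw [inv_pow, inv_pow]
    have h1 : a ^ n ≠ 0 := by positivity
    have h2 : b ^ n ≠ 0 := by positivity
    field_simp
  have hab1 : 1 ≤ a ^ n * b ^ n := by nlinarith
  have e1 : 0 ≤ (b⁻¹) ^ n - (a⁻¹) ^ n := by
    rw [e]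
    exact div_nonneg hp (by linarith)
  have e2 : (b⁻¹) ^ n - (a⁻¹) ^ n ≤ a ^ n - b ^ n := by
    rw [e]
    exact div_le_self hp hab1
  have hg : gam a b n = ((a ^ n - b ^ n) + ((b⁻¹) ^ n - (a⁻¹) ^ n)) / n := by
    unfold gam
    ring
  have h0 : 0 ≤ gam a b n := by
    rw [hg]
    exact div_nonneg (by linarith) hn'.le
  rw [abs_of_nonneg h0, hg]
  constructor
  · apply div_le_div_of_nonneg_right _ hn'.le
    linarith
  · rw [← mul_div_assoc]
    apply div_le_div_of_nonneg_right _ hn'.le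
    linarith

private theorem pow_sub_succ (a b : ℝ) (n : ℕ) :
    a ^ (n + 1) - b ^ (n + 1) = b * (a ^ n - b ^ n) + a ^ n * (a - b) := by ring

/-- `a^n - b^n ≤ n (a - b) a^n` -/
private theorem pow_sub_le {a b : ℝ} (hb : 1 ≤ b) (hab : b ≤ a) (n : ℕ) :
    a ^ n - b ^ n ≤ n * (a - b) * a ^ n := by
  induction n with
  | zero => simp
  | succ n ih =>
    have ha : 1 ≤ a := hb.trans hab
    have hp := pow_sub_nonneg hb hab n
    have han : 1 ≤ a ^ n := one_le_pow₀ ha
    rw [pow_sub_succ]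
    push_cast
    have h1 : b * (a ^ n - b ^ n) ≤ a * (n * (a - b) * a ^ n) := by
      calc b * (a ^ n - b ^ n) ≤ a * (a ^ n - b ^ n) := mul_le_mul_of_nonneg_right hab hp
        _ ≤ a * (n * (a - b) * a ^ n) := mul_le_mul_of_nonneg_left ih (by linarith)
    have h2 : a ^ n * (a - b) ≤ a * a ^ n * (a - b) := by
      apply mul_le_mul_of_nonneg_right _ (by linarith)
      nlinarith
    rw [pow_succ]
    nlinarith

/-- `n (a - b) b^(n-1) ≤ a^n - b^n`, written with `n + 1` -/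
private theorem le_pow_sub {a b : ℝ} (hb : 1 ≤ b) (hab : b ≤ a) (n : ℕ) :
    ((n : ℝ) + 1) * (a - b) * b ^ n ≤ a ^ (n + 1) - b ^ (n + 1) := by
  induction n with
  | zero => simp
  | succ n ih =>
    rw [pow_sub_succ a b (n + 1)]
    have h1 := mul_le_mul_of_nonneg_left ih (by linarith : (0 : ℝ) ≤ b)
    have h2 : b ^ (n + 1) * (a - b) ≤ a ^ (n + 1) * (a - b) :=
      mul_le_mul_of_nonneg_right (pow_le_pow_left₀ (by linarith) hab _) (by linarith)
    push_cast
    have e : ((n : ℝ) + 1 + 1) * (a - b) * b ^ (n + 1)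
        = b * (((n : ℝ) + 1) * (a - b) * b ^ n) + b ^ (n + 1) * (a - b) := by ring
    rw [e]
    linarith

private theorem quad_le {a b : ℝ} (hb : 1 ≤ b) (hab : b ≤ a) (n : ℕ) :
    n * (a - b) + (a - b) ^ 2 * (n * ((n : ℝ) - 1)) / 2 ≤ a ^ n - b ^ n := by
  induction n with
  | zero => simp
  | succ n ih =>
    rw [pow_sub_succ]
    have hp := pow_sub_nonneg hb hab n
    have h1 : a ^ n - b ^ n ≤ b * (a ^ n - b ^ n) := by nlinarith
    have h2 : 1 + (n : ℝ) * (a - b) ≤ a ^ n := by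
      have h3 := one_add_mul_le_pow (show (-2 : ℝ) ≤ a - b by linarith) n
      have h4 : (1 + (a - b)) ^ n ≤ a ^ n := pow_le_pow_left₀ (by linarith) (by linarith) n
      linarith
    have h3 : (1 + (n : ℝ) * (a - b)) * (a - b) ≤ a ^ n * (a - b) :=
      mul_le_mul_of_nonneg_right h2 (by linarith)
    push_cast
    nlinarith

private theorem s_mono {a b : ℝ} (hb : 1 ≤ b) (hab : b ≤ a) (n : ℕ) (hn : 1 ≤ n) :
    (a ^ n - b ^ n) / n ≤ (a ^ (n + 1) - b ^ (n + 1)) / ((n + 1 : ℕ) : ℝ) := by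
  have hn' : (0 : ℝ) < n := by exact_mod_cast hn
  rw [div_le_div_iff₀ hn' (by positivity)]
  have h1 := pow_sub_le hb hab n
  have hp := pow_sub_nonneg hb hab n
  rw [pow_sub_succ]
  have h2 : a ^ n - b ^ n ≤ b * (a ^ n - b ^ n) := by nlinarith
  push_cast
  nlinarith

private theorem s_mono' {a b : ℝ} (hb : 1 ≤ b) (hab : b ≤ a) (m : ℕ) (hm : 1 ≤ m) (d : ℕ) (h : m ≤ d) :
    (a ^ m - b ^ m) / m ≤ (a ^ d - b ^ d) / d := by
  induction d, h using Nat.le_induction with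
  | base => exact le_rfl
  | succ d hd ih => exact ih.trans (s_mono hb hab d (hm.trans hd))

theorem hGam : StGam := by
  intro τ c hc hτ hne
  set a := max τ c with ha
  set b := min τ c with hbdef
  have hb : 1 ≤ b := le_min hτ.le hc
  have hab : b ≤ a := min_le_max
  have hD : a - b = |τ - c| := by
    rw [ha, hbdef, max_sub_min_eq_abs, abs_sub_comm]
  have hDpos : 0 < a - b := by
    rw [hD]
    exact abs_pos.2 (sub_ne_zero.2 hne)
  have hgb : ∀ n : ℕ, 1 ≤ n → (a ^ n - b ^ n) / n ≤ |gam τ c n| ∧ |gam τ c n| ≤ 2 * ((a ^ n - b ^ n) / n) := by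
    intro n hn
    rw [abs_gam_maxmin τ c n]
    exact gam_bounds hb hab n hn
  have hC : ∀ d : ℕ, 1 ≤ d → |gam τ c d| ≤ 1 / 8 → (τ - c) ^ 2 * ((d : ℝ) - 1) ≤ 1 / 4 := by
    intro d hd hg
    have h1 := (hgb d hd).1.trans hg
    have hd' : (0 : ℝ) < d := by exact_mod_cast hd
    rw [div_le_iff₀ hd'] at h1
    have h2 := quad_le hb hab d
    have h3 : (τ - c) ^ 2 = (a - b) ^ 2 := by rw [hD, sq_abs]
    rw [h3]
    have h4 : (d : ℝ) * ((a - b) ^ 2 * ((d : ℝ) - 1)) ≤ d * (1 / 4) := by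
      have h5 : 0 ≤ (d : ℝ) * (a - b) := by positivity
      nlinarith
    exact le_of_mul_le_mul_left h4 hd'
  refine ⟨?_, ?_, hC, ?_⟩
  · by_contra hcon
    push Not at hcon
    obtain ⟨N, hN⟩ := exists_nat_gt (1 / 4 / (τ - c) ^ 2)
    have hsq : 0 < (τ - c) ^ 2 := by
      have := sub_ne_zero.2 hne
      positivity
    have h1 := hC (N + 1) (by omega) (hcon (N + 1) (by omega)).le
    rw [div_lt_iff₀ hsq] at hN
    push_cast at h1
    nlinarith
  · intro m d hm hmd hg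
    have hm' : (0 : ℝ) < m := by exact_mod_cast hm
    have h1 := (hgb m hm).2
    have h2 := (hgb d (by omega)).1
    have h3 := s_mono' hb hab (2 * m) (by omega) d hmd
    have hp := pow_sub_nonneg hb hab m
    set s := (a ^ m - b ^ m) / m with hs
    have hs0 : 0 ≤ s := div_nonneg hp hm'.le
    have h4 : s ^ 2 ≤ 2 * (a - b) * ((a ^ (2 * m) - b ^ (2 * m)) / ((2 * m : ℕ) : ℝ)) := by
      have h5 := pow_sub_le hb hab m
      have h6 : a ^ m - b ^ m ≤ m * (a - b) * (a ^ m + b ^ m) := by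
        have hbm : 0 ≤ b ^ m := by positivity
        have : 0 ≤ (m : ℝ) * (a - b) * b ^ m := by positivity
        nlinarith
      have h7 : 2 * (a - b) * ((a ^ (2 * m) - b ^ (2 * m)) / ((2 * m : ℕ) : ℝ))
          = (a ^ m - b ^ m) * (m * (a - b) * (a ^ m + b ^ m)) / m ^ 2 := by
        push_cast
        rw [pow_mul', pow_mul']
        field_simp
        ring
      rw [h7, hs, div_pow]
      apply div_le_div_of_nonneg_right _ (by positivity)
      rw [sq]
      exact mul_le_mul_of_nonneg_left h6 hp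
    have h8 : s ^ 2 ≤ (a - b) / 4 := by
      have h9 : (a ^ (2 * m) - b ^ (2 * m)) / ((2 * m : ℕ) : ℝ) ≤ 1 / 8 := h3.trans (h2.trans hg)
      nlinarith
    refine h1.trans ?_
    rw [← hD]
    apply Real.le_sqrt_of_sq_le
    nlinarith
  · intro m n hm hmn hmD
    rw [← hD] at hmD ⊢
    have hn : 1 ≤ n := hm.trans hmn
    have hn' : (0 : ℝ) < n := by exact_mod_cast hn
    have h1 := (hgb n hn).1
    rw [div_le_iff₀ hn'] at h1
    obtain ⟨m', rfl⟩ : ∃ m', m = m' + 1 := ⟨m - 1, by omega⟩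
    obtain ⟨r, rfl⟩ : ∃ r, n = r + (m' + 1) := ⟨n - (m' + 1), by omega⟩
    have e1 : r + (m' + 1) - 1 = r + m' := by omega
    rw [e1]
    have hb0 : (0 : ℝ) < b := by linarith
    have ha0 : (0 : ℝ) < a := by linarith
    have h2 := le_pow_sub hb hab m'
    have h3 : a ^ m' ≤ 2 * b ^ m' := by
      have h4 := pow_sub_le hb hab m'
      have h5 : (m' : ℝ) * (a - b) * a ^ m' ≤ 1 / 2 * a ^ m' := by
        apply mul_le_mul_of_nonneg_right _ (by positivity)
        push_cast at hmD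
        nlinarith
      linarith
    have h6 : a ^ r * (a ^ (m' + 1) - b ^ (m' + 1)) ≤ a ^ (r + (m' + 1)) - b ^ (r + (m' + 1)) := by
      rw [pow_add a r, pow_add b r]
      have : b ^ r ≤ a ^ r := pow_le_pow_left₀ hb0.le hab r
      have hbm : 0 ≤ b ^ (m' + 1) := by positivity
      nlinarith
    have h7 : (a - b) * a ^ (r + m') * (((m' + 1 : ℕ) : ℝ) / 2) ≤ a ^ r * (a ^ (m' + 1) - b ^ (m' + 1)) := by
      have h8 : (((m' : ℝ) + 1) * (a - b)) * (a ^ m' / 2) ≤ (((m' : ℝ) + 1) * (a - b)) * b ^ m' := by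
        apply mul_le_mul_of_nonneg_left _ (by positivity)
        linarith
      have h9 : (((m' : ℝ) + 1) * (a - b)) * (a ^ m' / 2) ≤ a ^ (m' + 1) - b ^ (m' + 1) := h8.trans h2
      have h10 := mul_le_mul_of_nonneg_left h9 (by positivity : 0 ≤ a ^ r)
      rw [pow_add]
      push_cast
      calc (a - b) * (a ^ r * a ^ m') * (((m' : ℝ) + 1) / 2)
          = a ^ r * ((((m' : ℝ) + 1) * (a - b)) * (a ^ m' / 2)) := by ring
        _ ≤ _ := h10
    have h11 : (a - b) * a ^ (r + m') * (((m' + 1 : ℕ) : ℝ) / 2) ≤ |gam τ c (r + (m' + 1))| * ((r + (m' + 1) : ℕ) : ℝ) :=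
      h7.trans (h6.trans h1)
    linarith [mul_comm |gam τ c (r + (m' + 1))| (((r + (m' + 1) : ℕ) : ℝ))]

end Pool.Agent.Helper76.SL
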